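import Mathlib
import Pool.Agent.Work.MP_f3d170_co_h45.Defs
import Pool.Agent.Work.MP_f3d170_co_h45.Final
import Pool.Agent.Work.MP_f3d170_lt.Final

set_option autoImplicit false

open Pool.Agent.Work.MP_f3d170_co_h45

/-- Let `B(n,r)` and `C(n,r)` be the total numbers of bases and of circuits of the matroids of
rank `r` with `n` elements, one matroid `M` for each isomorphism class (the set `𝒩`).  For every
`k ≥ 1` there are constants `R` and `C` such that `B(n,r) < C(n,r)` and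
`k^2 n B(n,r) ≤ (k+1)^2 (r+1) C(n,r)` for all `r ≥ 3` and all `n ≥ C r`, for all `r ≥ R` and all
`n ≥ 1200 (k+1) r`, and for all `r ≥ 3` and all `n ≥ (2r(k+1))^24`. -/
theorem Pool.Agent.Results.MP_f3d170_co.LinearThreshold.result (k : ℕ) (hk : 1 ≤ k) :
    ∃ R C : ℕ, ∀ r n : ℕ, 3 ≤ r →
      ((R ≤ r ∧ 1200 * (k + 1) * r ≤ n) ∨ C * r ≤ n ∨ (2 * r * (k + 1)) ^ 24 ≤ n) →
      (∃ 𝒩 : Finset (RankMatroid n r), IsTransversal 𝒩) ∧
      ∀ 𝒩 : Finset (RankMatroid n r), IsTransversal 𝒩 →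
        ∑ M ∈ 𝒩, numBases M.1 < ∑ M ∈ 𝒩, numCircuits M.1 ∧
        k ^ 2 * (n * ∑ M ∈ 𝒩, numBases M.1) ≤
          (k + 1) ^ 2 * ((r + 1) * ∑ M ∈ 𝒩, numCircuits M.1) := by
  obtain ⟨R, C, hC⟩ := Pool.F3LT.main k hk
  exact ⟨R, C, fun r n hr hn => ⟨exists_transversal n r, hC r n hr hn⟩⟩
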