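import Mathlib
import Pool.Agent.Work.MP_f3d170_co_h45.Defs
import Pool.Agent.Work.MP_f3d170_co_h45.Final

set_option autoImplicit false

open Pool.Agent.Work.MP_f3d170_co_h45

/-- Let `B(n,r)` and `C(n,r)` be the total numbers of bases and of circuits of the matroids of
rank `r` with `n` elements, one matroid `M` for each isomorphism class (the set `𝒩`).  Then
`(r+1) (C(n,r) + 1) ≤ (n-r+1) B(n,r)` for `r < n`, and `C(n,r) < B(n,r)` whenever `n ≤ 2r`. -/
theorem Pool.Agent.Results.MP_f3d170_co.MoreBases.result (n r : ℕ) (hrn : r ≤ n) :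
    (∃ 𝒩 : Finset (RankMatroid n r), IsTransversal 𝒩) ∧
    ∀ 𝒩 : Finset (RankMatroid n r), IsTransversal 𝒩 →
      (r < n → (r + 1) * (∑ M ∈ 𝒩, numCircuits M.1 + 1) ≤
        (n - r + 1) * ∑ M ∈ 𝒩, numBases M.1) ∧
      (n ≤ 2 * r → ∑ M ∈ 𝒩, numCircuits M.1 < ∑ M ∈ 𝒩, numBases M.1) :=
  ⟨exists_transversal n r, fun _ h => ⟨fun hlt => main_ineq hlt h, fun h2 => main_lt hrn h2 h⟩⟩
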