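import Mathlib
import Pool.Agent.Work.MP_f3d170_co_h45.Defs
import Pool.Agent.Work.MP_f3d170_sp.Defs
import Pool.Agent.Work.MP_f3d170_sp.All

set_option autoImplicit false

open Pool.Agent.Work.MP_f3d170_co_h45
open Pool.Agent.Work.MP_f3d170_sp (SparsePaving)

open Classical in
/-- Let `B(n,r)` and `C(n,r)` be the total numbers of bases and of circuits of the sparse paving
matroids of rank `r` with `n` elements, one matroid `M` for each isomorphism class (the sparse
paving members of `𝒩`).  For all large `r` and `n ≥ r`: `C(n,r) < B(n,r)` if `n ≤ 2.11 r` and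
`B(n,r) < C(n,r)` if `n ≥ 2.85 r`. -/
theorem Pool.Agent.Results.MP_f3d170_co.SparsePaving.result :
    (∀ n r : ℕ, r ≤ n → ∃ 𝒩 : Finset (RankMatroid n r), IsTransversal 𝒩) ∧
    ∃ r₀ : ℕ, ∀ r n : ℕ, r₀ ≤ r → r ≤ n →
      ∀ 𝒩 : Finset (RankMatroid n r), IsTransversal 𝒩 →
        (100 * n ≤ 211 * r →
          ∑ M ∈ 𝒩 with SparsePaving M, numCircuits M.1 <
            ∑ M ∈ 𝒩 with SparsePaving M, numBases M.1) ∧
        (285 * r ≤ 100 * n →
          ∑ M ∈ 𝒩 with SparsePaving M, numBases M.1 <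
            ∑ M ∈ 𝒩 with SparsePaving M, numCircuits M.1) :=
  ⟨fun n r _ => exists_transversal n r, Pool.Agent.Work.MP_f3d170_sp.all_main⟩
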